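import Pool.Agent.Helper49.NF.Goals

/-! Packet NF-ORBC: sets invariant under a group in which the elements have few fixed points. -/

set_option autoImplicit false

open Finset
open Pool.Agent.Helper47.SR (Grp mv lev)
open Pool.Agent.Helper49.NF

namespace Pool.Agent.Helper77.NF

open scoped Classical

variable {n : ℕ} (H : Grp n)

/-- the orbit of a point -/
noncomputable def ob (x : Fin n) : Finset (Fin n) := univ.filter (fun y => ∃ γ ∈ H, γ x = y)

theorem mem_ob (x y : Fin n) : y ∈ ob H x ↔ ∃ γ ∈ H, γ x = y := by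
  simp [ob]

theorem self_ob (x : Fin n) : x ∈ ob H x := (mem_ob H x x).2 ⟨1, H.one_mem, rfl⟩

theorem ob_eq (x y : Fin n) (h : y ∈ ob H x) : ob H y = ob H x := by
  obtain ⟨γ, hγ, rfl⟩ := (mem_ob H x y).1 h
  ext z
  rw [mem_ob, mem_ob]
  constructor
  · rintro ⟨δ, hδ, rfl⟩
    exact ⟨δ * γ, H.mul_mem hδ hγ, rfl⟩
  · rintro ⟨δ, hδ, rfl⟩
    exact ⟨δ * γ⁻¹, H.mul_mem hδ (H.inv_mem hγ), by simp⟩

/-- the orbits -/
noncomputable def Orb : Finset (Finset (Fin n)) := univ.image (ob H)

theorem ob_mem (x : Fin n) : ob H x ∈ Orb H := mem_image_of_mem _ (mem_univ _)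

theorem orb_of (O : Finset (Fin n)) (hO : O ∈ Orb H) (x : Fin n) (hx : x ∈ O) : O = ob H x := by
  obtain ⟨y, _, rfl⟩ := mem_image.1 hO
  exact (ob_eq H y x hx).symm

theorem orb_disj (P : Finset (Finset (Fin n))) (hP : P ⊆ Orb H) :
    (P : Set (Finset (Fin n))).PairwiseDisjoint id := by
  intro O hO O' hO' hne
  rw [Function.onFun, disjoint_left]
  intro x hx hx'
  exact hne ((orb_of H O (hP hO) x hx).trans (orb_of H O' (hP hO') x hx').symm)

theorem mem_els (γ : Equiv.Perm (Fin n)) : γ ∈ els H ↔ γ ∈ H := by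
  simp [els]

theorem card_els : (els H).card = Nat.card H := by
  rw [Nat.card_eq_fintype_card, Fintype.card_subtype]
  rfl

/-- the fibres of `γ ↦ γ x` -/
theorem fib (x y : Fin n) (h : y ∈ ob H x) :
    ((els H).filter (fun γ => γ x = y)).card = stc H x ∧
      ((els H).filter (fun γ => γ x = y)).card = stc H y := by
  obtain ⟨δ, hδ, hy⟩ := (mem_ob H x y).1 h
  have hδ' : δ⁻¹ y = x := by rw [← hy]; simp
  constructor
  · unfold stc
    refine card_bij' (fun γ _ => δ⁻¹ * γ) (fun γ _ => δ * γ) ?_ ?_ ?_ ?_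
    · intro γ hγ
      rw [mem_filter, mem_els] at hγ ⊢
      refine ⟨H.mul_mem (H.inv_mem hδ) hγ.1, ?_⟩
      change δ⁻¹ (γ x) = x
      rw [hγ.2, hδ']
    · intro γ hγ
      rw [mem_filter, mem_els] at hγ ⊢
      refine ⟨H.mul_mem hδ hγ.1, ?_⟩
      change δ (γ x) = y
      rw [hγ.2, hy]
    · intro γ _
      simp
    · intro γ _
      simp
  · unfold stc
    refine card_bij' (fun γ _ => γ * δ⁻¹) (fun γ _ => γ * δ) ?_ ?_ ?_ ?_
    · intro γ hγ
      rw [mem_filter, mem_els] at hγ ⊢
      refine ⟨H.mul_mem hγ.1 (H.inv_mem hδ), ?_⟩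
      change γ (δ⁻¹ y) = y
      rw [hδ', hγ.2]
    · intro γ hγ
      rw [mem_filter, mem_els] at hγ ⊢
      refine ⟨H.mul_mem hγ.1 hδ, ?_⟩
      change γ (δ x) = y
      rw [hy, hγ.2]
    · intro γ _
      simp
    · intro γ _
      simp

theorem card_orbit (x : Fin n) :
    Nat.card H = (ob H x).card * stc H x ∧ ∑ y ∈ ob H x, stc H y = Nat.card H := by
  have h1 : (els H).card = ∑ y ∈ ob H x, ((els H).filter (fun γ => γ x = y)).card := by
    refine card_eq_sum_card_fiberwise ?_
    intro γ hγ
    exact (mem_ob H x _).2 ⟨γ, (mem_els H γ).1 hγ, rfl⟩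
  rw [card_els] at h1
  constructor
  · rw [h1, sum_congr rfl fun y hy => (fib H x y hy).1, sum_const, smul_eq_mul]
  · rw [h1]
    exact sum_congr rfl fun y hy => (fib H x y hy).2.symm

theorem stc_pos (x : Fin n) : 1 ≤ stc H x := by
  unfold stc
  refine card_pos.2 ⟨1, ?_⟩
  rw [mem_filter, mem_els]
  exact ⟨H.one_mem, rfl⟩

/-- the orbits which are not regular -/
noncomputable def Non : Finset (Finset (Fin n)) := (Orb H).filter (fun O => O.card ≠ Nat.card H)

/-- the regular orbits -/
noncomputable def Reg : Finset (Finset (Fin n)) := (Orb H).filter (fun O => O.card = Nat.card H)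

theorem nonreg (O : Finset (Fin n)) (hO : O ∈ Non H) :
    Nat.card H ≤ ∑ x ∈ O, 2 * (stc H x - 1) := by
  obtain ⟨h1, h2⟩ := mem_filter.1 hO
  obtain ⟨x, _, rfl⟩ := mem_image.1 h1
  obtain ⟨c1, c2⟩ := card_orbit H x
  rw [← c2]
  refine sum_le_sum fun y hy => ?_
  have e : stc H y = stc H x := (fib H x y hy).2.symm.trans (fib H x y hy).1
  have h3 : stc H x ≠ 1 := by
    intro h3
    rw [h3, mul_one] at c1
    exact h2 c1.symm
  have h4 := stc_pos H x
  omega

theorem sum_stc : ∑ x : Fin n, (stc H x - 1) = ∑ γ ∈ (els H).filter (fun γ => γ ≠ 1), fx γ := by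
  have h1 : ∀ x : Fin n, stc H x - 1 =
      (((els H).filter (fun γ => γ ≠ 1)).filter (fun γ => γ x = x)).card := by
    intro x
    have e1 : (els H).filter (fun γ => γ x = x) =
        insert 1 (((els H).filter (fun γ => γ ≠ 1)).filter (fun γ => γ x = x)) := by
      ext γ
      simp only [mem_filter, mem_insert, mem_els]
      constructor
      · rintro ⟨h1, h2⟩
        by_cases h : γ = 1
        · exact Or.inl h
        · exact Or.inr ⟨⟨h1, h⟩, h2⟩
      · rintro (h | ⟨⟨h1, _⟩, h2⟩)
        · rw [h]
          exact ⟨H.one_mem, rfl⟩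
        · exact ⟨h1, h2⟩
    unfold stc
    rw [e1, card_insert_of_notMem]
    · simp
    · simp
  rw [sum_congr rfl fun x _ => h1 x]
  unfold fx
  simp only [card_filter]
  rw [sum_comm]

theorem card_non (f : ℕ) (hf : ∀ γ ∈ H, γ ≠ 1 → fx γ ≤ f) : (Non H).card ≤ 2 * f := by
  have hpos : 0 < Nat.card H := Nat.card_pos
  have hsub : Non H ⊆ Orb H := filter_subset _ _
  have h1 : (Non H).card * Nat.card H ≤ ∑ O ∈ Non H, ∑ x ∈ O, 2 * (stc H x - 1) := by
    rw [← smul_eq_mul, ← sum_const]
    exact sum_le_sum fun O hO => nonreg H O hO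
  have h2 : ∑ O ∈ Non H, ∑ x ∈ O, 2 * (stc H x - 1) ≤ ∑ x : Fin n, 2 * (stc H x - 1) := by
    have := sum_biUnion (f := fun x => 2 * (stc H x - 1)) (orb_disj H (Non H) hsub)
    simp only [id] at this
    rw [← this]
    exact sum_le_sum_of_subset (subset_univ _)
  have h3 : ∑ x : Fin n, 2 * (stc H x - 1) ≤ 2 * (Nat.card H * f) := by
    rw [← mul_sum, sum_stc]
    refine Nat.mul_le_mul_left 2 ?_
    calc ∑ γ ∈ (els H).filter (fun γ => γ ≠ 1), fx γ
        ≤ ∑ γ ∈ (els H).filter (fun γ => γ ≠ 1), f := by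
          refine sum_le_sum fun γ hγ => ?_
          rw [mem_filter, mem_els] at hγ
          exact hf γ hγ.1 hγ.2
      _ = ((els H).filter (fun γ => γ ≠ 1)).card * f := by rw [sum_const, smul_eq_mul]
      _ ≤ Nat.card H * f := by
          refine Nat.mul_le_mul_right f ?_
          rw [← card_els]
          exact card_filter_le _ _
  have h4 : (Non H).card * Nat.card H ≤ (2 * f) * Nat.card H := by
    calc (Non H).card * Nat.card H ≤ 2 * (Nat.card H * f) := h1.trans (h2.trans h3)
      _ = (2 * f) * Nat.card H := by ring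
  exact Nat.le_of_mul_le_mul_right h4 hpos

theorem card_reg : (Reg H).card ≤ n / Nat.card H := by
  have hpos : 0 < Nat.card H := Nat.card_pos
  rw [Nat.le_div_iff_mul_le hpos]
  have h1 := card_biUnion (s := Reg H) (t := id)
    (fun O hO O' hO' hne => orb_disj H (Reg H) (filter_subset _ _) hO hO' hne)
  have h2 : ∑ O ∈ Reg H, (id O).card = (Reg H).card * Nat.card H := by
    rw [← smul_eq_mul, ← sum_const]
    exact sum_congr rfl fun O hO => (mem_filter.1 hO).2
  rw [← h2, ← h1]
  have := card_le_univ ((Reg H).biUnion id)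
  rwa [Fintype.card_fin] at this

theorem reg_in (A : Finset (Fin n)) :
    ((Reg H).filter (fun O => O ⊆ A)).card ≤ A.card / Nat.card H := by
  have hpos : 0 < Nat.card H := Nat.card_pos
  rw [Nat.le_div_iff_mul_le hpos]
  have hsub : (Reg H).filter (fun O => O ⊆ A) ⊆ Orb H :=
    (filter_subset _ _).trans (filter_subset _ _)
  have h1 := card_biUnion (s := (Reg H).filter (fun O => O ⊆ A)) (t := id)
    (fun O hO O' hO' hne => orb_disj H _ hsub hO hO' hne)
  have h2 : ∑ O ∈ (Reg H).filter (fun O => O ⊆ A), (id O).card =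
      ((Reg H).filter (fun O => O ⊆ A)).card * Nat.card H := by
    rw [← smul_eq_mul, ← sum_const]
    exact sum_congr rfl fun O hO => (mem_filter.1 (mem_filter.1 hO).1).2
  rw [← h2, ← h1]
  refine card_le_card ?_
  intro x hx
  obtain ⟨O, hO, hx⟩ := mem_biUnion.1 hx
  exact (mem_filter.1 hO).2 hx

theorem choose_up (N a b : ℕ) (hab : a ≤ b) (hb : 2 * b ≤ N) : N.choose a ≤ N.choose b := by
  induction b with
  | zero =>
    have : a = 0 := by omega
    rw [this]
  | succ b ih =>
    rcases Nat.eq_or_lt_of_le hab with h | h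
    · rw [h]
    · have h1 := ih (by omega) (by omega)
      exact h1.trans (Nat.choose_le_succ_of_lt_half_left (by omega))

theorem goal_ORBC : Goal_ORBC := by
  intro n f s j H hf hs hsH hj
  have hpos : 0 < Nat.card H := Nat.card_pos
  set h := Nat.card H with hh
  -- the injection
  have hcard : inv H j ≤ ((Non H).powerset ×ˢ
      ((range (j / h + 1)).biUnion fun i => powersetCard i (Reg H))).card := by
    unfold inv
    refine card_le_card_of_injOn
      (fun A => ((Non H).filter (fun O => O ⊆ A), (Reg H).filter (fun O => O ⊆ A))) ?_ ?_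
    · intro A hA
      have hA := mem_filter.1 hA
      have hc : A.card = j := (mem_powersetCard.1 hA.1).2
      refine mem_product.2 ⟨mem_powerset.2 (filter_subset _ _), mem_biUnion.2
        ⟨((Reg H).filter (fun O => O ⊆ A)).card, ?_, mem_powersetCard.2
          ⟨filter_subset _ _, rfl⟩⟩⟩
      have := reg_in H A
      rw [hc] at this
      rw [mem_range]
      exact Nat.lt_succ_of_le this
    · intro A hA A' hA' heq
      have hA := mem_filter.1 hA
      have hA' := mem_filter.1 hA'
      have key : ∀ B B' : Finset (Fin n), (∀ γ ∈ H, mv γ B = B) →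
          (Non H).filter (fun O => O ⊆ B) = (Non H).filter (fun O => O ⊆ B') →
          (Reg H).filter (fun O => O ⊆ B) = (Reg H).filter (fun O => O ⊆ B') → B ⊆ B' := by
        intro B B' hB e1 e2 x hx
        have hsub : ob H x ⊆ B := by
          intro y hy
          obtain ⟨γ, hγ, rfl⟩ := (mem_ob H x y).1 hy
          rw [← hB γ hγ]
          exact mem_map_of_mem _ hx
        have hsub' : ob H x ⊆ B' := by
          by_cases hc : (ob H x).card = Nat.card H
          · have : ob H x ∈ (Reg H).filter (fun O => O ⊆ B) :=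
              mem_filter.2 ⟨mem_filter.2 ⟨ob_mem H x, hc⟩, hsub⟩
            rw [e2] at this
            exact (mem_filter.1 this).2
          · have : ob H x ∈ (Non H).filter (fun O => O ⊆ B) :=
              mem_filter.2 ⟨mem_filter.2 ⟨ob_mem H x, hc⟩, hsub⟩
            rw [e1] at this
            exact (mem_filter.1 this).2
        exact hsub' (self_ob H x)
      have e1 := congrArg Prod.fst heq
      have e2 := congrArg Prod.snd heq
      exact Subset.antisymm (key A A' hA.2 e1 e2) (key A' A hA'.2 e1.symm e2.symm)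
  refine hcard.trans ?_
  rw [card_product, card_powerset]
  have h1 : 2 ^ (Non H).card ≤ 4 ^ f := by
    calc 2 ^ (Non H).card ≤ 2 ^ (2 * f) :=
          Nat.pow_le_pow_right (by norm_num) (card_non H f hf)
      _ = 4 ^ f := by rw [pow_mul]; norm_num
  have h2 : ((range (j / h + 1)).biUnion fun i => powersetCard i (Reg H)).card ≤
      (n + 1) * (n / s).choose (j / s) := by
    refine card_biUnion_le.trans ?_
    calc ∑ i ∈ range (j / h + 1), (powersetCard i (Reg H)).card
        ≤ ∑ i ∈ range (j / h + 1), (n / s).choose (j / s) := by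
          refine sum_le_sum fun i hi => ?_
          rw [mem_range] at hi
          rw [card_powersetCard]
          have e1 : (Reg H).card ≤ n / s :=
            (card_reg H).trans (Nat.div_le_div_left hsH (by omega))
          have e2 : i ≤ j / s :=
            (Nat.lt_succ_iff.1 hi).trans (Nat.div_le_div_left hsH (by omega))
          have e3 : 2 * (j / s) ≤ n / s := by
            rw [Nat.le_div_iff_mul_le (by omega)]
            have := Nat.div_mul_le_self j s
            calc 2 * (j / s) * s = 2 * (j / s * s) := by ring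
              _ ≤ 2 * j := Nat.mul_le_mul_left 2 this
              _ ≤ n := hj
          exact (Nat.choose_le_choose i e1).trans (choose_up _ _ _ e2 e3)
      _ = (j / h + 1) * (n / s).choose (j / s) := by
          rw [sum_const, card_range, smul_eq_mul]
      _ ≤ (n + 1) * (n / s).choose (j / s) := by
          refine Nat.mul_le_mul_right _ ?_
          have := Nat.div_le_self j h
          omega
  exact Nat.mul_le_mul h1 h2

end Pool.Agent.Helper77.NF
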